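import Mathlib

namespace Pool.Agent.Results.MP_a51b5f_co.Yes

open Configuration Projectivization
open scoped LinearAlgebra.Projectivization

/-- The incidence graph of a point-line configuration: vertices are the points and the lines,
a point and a line are adjacent exactly when they are incident. -/
def inc (P L : Type) [Membership P L] : SimpleGraph (P ⊕ L) :=
  SimpleGraph.fromRel fun a b => ∃ (p : P) (l : L), a = Sum.inl p ∧ b = Sum.inr l ∧ p ∈ l

/-- `D` is a `k`-dominating independent set of `G`. -/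
def IsDIS {V : Type} (G : SimpleGraph V) (k : ℕ) (D : Set V) : Prop :=
  (∀ v, v ∉ D → k ≤ (G.neighborSet v ∩ D).ncard) ∧ ∀ u ∈ D, ∀ v ∈ D, ¬ G.Adj u v

lemma z2 : ∀ a : ZMod 2, a ≠ 1 → a = 0 := by decide
lemma z2' : ∀ a : ZMod 2, a + a = 0 := by decide

lemma half {W : Type} [AddCommGroup W] [Finite W] (f : W →+ ZMod 2) (w0 : W) (h : f w0 = 1) :
    Nat.card W ≤ 2 * {w | f w = 1}.ncard := by
  have h1 : (Set.univ : Set W) ⊆ {w | f w = 1} ∪ (fun w => w - w0) '' {w | f w = 1} := by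
    intro w _
    by_cases hw : f w = 1
    · exact Or.inl hw
    · refine Or.inr ⟨w + w0, ?_, by simp⟩
      simp [z2 _ hw, h]
  have h2 := Set.ncard_le_ncard h1 (Set.toFinite _)
  have h3 := Set.ncard_union_le {w | f w = 1} ((fun w => w - w0) '' {w | f w = 1})
  have h4 := Set.ncard_image_le (s := {w | f w = 1}) (f := fun w => w - w0) (Set.toFinite _)
  rw [Set.ncard_univ] at h2
  omega

section
variable {F : Type} [Field F] [Finite F] [CharP F 2] [Module (ZMod 2) F]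
variable {V : Type} [AddCommGroup V] [Finite V] [Module (ZMod 2) V]

def ln (s c : F) : ℙ F (Fin 3 → F) := mk F ![1, s, c] (by intro h; simpa using congrFun h 0)
def pa (x y : F) : ℙ F (Fin 3 → F) := mk F ![x, y, 1] (by intro h; simpa using congrFun h 2)
def pi (x : F) : ℙ F (Fin 3 → F) := mk F ![x, 1, 0] (by intro h; simpa using congrFun h 1)

omit [Finite F] [CharP F 2] [Module (ZMod 2) F] in
lemma ln_inj {s c s' c' : F} (h : ln s c = ln s' c') : s = s' ∧ c = c' := by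
  obtain ⟨a, ha⟩ := (mk_eq_mk_iff' F _ _ _ _).1 h
  have h0 := congrFun ha 0
  have h1 := congrFun ha 1
  have h2 := congrFun ha 2
  simp at h0 h1 h2
  subst h0
  simp at h1 h2
  exact ⟨h1.symm, h2.symm⟩

omit [Finite F] [CharP F 2] [Module (ZMod 2) F] in
lemma pa_inj {s c s' c' : F} (h : pa s c = pa s' c') : s = s' ∧ c = c' := by
  obtain ⟨a, ha⟩ := (mk_eq_mk_iff' F _ _ _ _).1 h
  have h0 := congrFun ha 0
  have h1 := congrFun ha 1
  have h2 := congrFun ha 2
  simp at h0 h1 h2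
  subst h2
  simp at h1 h0
  exact ⟨h0.symm, h1.symm⟩

omit [Finite F] [CharP F 2] [Module (ZMod 2) F] in
lemma pi_inj {s s' : F} (h : pi s = pi s') : s = s' := by
  obtain ⟨a, ha⟩ := (mk_eq_mk_iff' F _ _ _ _).1 h
  have h0 := congrFun ha 0
  have h1 := congrFun ha 1
  simp at h0 h1
  subst h1
  simpa using h0.symm

omit [Finite F] [CharP F 2] [Module (ZMod 2) F] in
lemma mem_mk (u w : Fin 3 → F) (hu : u ≠ 0) (hw : w ≠ 0) :
    mk F u hu ∈ mk F w hw ↔ u 0 * w 0 + u 1 * w 1 + u 2 * w 2 = 0 := by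
  rw [ofField.mem_iff, orthogonal_mk]
  simp [dotProduct, Fin.sum_univ_three]

/-- the lines -/
def M (T : F →ₗ[ZMod 2] ZMod 2) (σ : V →ₗ[ZMod 2] F) : Set (ℙ F (Fin 3 → F)) :=
  {l | ∃ v c, T (σ v * c) = 1 ∧ l = ln (σ v) c}

/-- the points -/
def K (T : F →ₗ[ZMod 2] ZMod 2) (σ : V →ₗ[ZMod 2] F) : Set (ℙ F (Fin 3 → F)) :=
  {p | ∀ l ∈ M T σ, p ∉ l}

/-- `v ↦ σ v * x + (σ v)^2 * y` -/
def psi (σ : V →ₗ[ZMod 2] F) (x y : F) : V →+ F where
  toFun v := σ v * x + σ v ^ 2 * y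
  map_zero' := by simp
  map_add' v w := by rw [map_add, CharTwo.add_sq]; ring

lemma lemA (T : F →ₗ[ZMod 2] ZMod 2) (σ : V →ₗ[ZMod 2] F) (hσ : Function.Injective σ) (k : ℕ)
    (hV : 2 * k ≤ Nat.card V) (hF : 2 * k ≤ Nat.card F) (p : ℙ F (Fin 3 → F)) (hp : p ∉ K T σ) :
    k ≤ {l | l ∈ M T σ ∧ p ∈ l}.ncard := by
  induction p with | h u hu =>
  simp only [K, Set.mem_setOf_eq, not_forall, not_not] at hp
  obtain ⟨l, ⟨v0, c0, hT, rfl⟩, hl⟩ := hp
  rw [ln, mem_mk] at hl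
  simp at hl
  have h2 : (2 : F) = 0 := CharTwo.two_eq_zero
  by_cases hz : u 2 = 0
  · have := half (T.toAddMonoidHom.comp (AddMonoidHom.mulLeft (σ v0))) c0 hT
    have h3 : {c | T (σ v0 * c) = 1}.ncard ≤ {l | l ∈ M T σ ∧ mk F u hu ∈ l}.ncard := by
      refine Set.ncard_le_ncard_of_injOn (fun c => ln (σ v0) c) ?_ ?_ (Set.toFinite _)
      · intro c hc
        refine ⟨⟨v0, c, hc, rfl⟩, ?_⟩
        rw [ln, mem_mk]
        simp
        rw [hz] at hl ⊢
        linear_combination hl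
      · intro c _ c' _ h
        exact (ln_inj h).2
    change _ ≤ 2 * {c | T (σ v0 * c) = 1}.ncard at this
    omega
  · have e : ∀ v, psi σ (u 0 / u 2) (u 1 / u 2) v = σ v * ((u 0 + u 1 * σ v) / u 2) := by
      intro v
      change σ v * _ + σ v ^ 2 * _ = _
      field_simp
    have hc : (u 0 + u 1 * σ v0) / u 2 = c0 := by
      field_simp
      linear_combination hl - u 2 * c0 * h2
    have := half (T.toAddMonoidHom.comp (psi σ (u 0 / u 2) (u 1 / u 2))) v0 (by
      change T _ = 1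
      rw [e, hc, hT])
    have h3 : {v | T (psi σ (u 0 / u 2) (u 1 / u 2) v) = 1}.ncard ≤
        {l | l ∈ M T σ ∧ mk F u hu ∈ l}.ncard := by
      refine Set.ncard_le_ncard_of_injOn (fun v => ln (σ v) ((u 0 + u 1 * σ v) / u 2)) ?_ ?_
        (Set.toFinite _)
      · intro v hv
        refine ⟨⟨v, _, by rw [← e]; exact hv, rfl⟩, ?_⟩
        rw [ln, mem_mk]
        simp
        field_simp
        linear_combination (u 0 + u 1 * σ v) * h2
      · intro c _ c' _ h
        exact hσ (ln_inj h).1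
    change _ ≤ 2 * {v | T (psi σ (u 0 / u 2) (u 1 / u 2) v) = 1}.ncard at this
    omega

lemma rep (T : F →ₗ[ZMod 2] ZMod 2) (c0 : F) (hT : T c0 = 1) (g : F →ₗ[ZMod 2] ZMod 2) :
    ∃ t : F, ∀ z, g z = T (t * z) := by
  let Λ : F →+ Module.Dual (ZMod 2) F :=
    { toFun := fun t => (T.toAddMonoidHom.comp (AddMonoidHom.mulLeft t)).toZModLinearMap 2
      map_zero' := by ext z; simp
      map_add' := by intro a b; ext z; simp [add_mul] }
  have hΛ : ∀ t z, Λ t z = T (t * z) := fun t z => rfl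
  have hi : Function.Injective (Λ.toZModLinearMap 2) := by
    rw [injective_iff_map_eq_zero]
    intro t ht
    by_contra h0
    have h1 : Λ t (c0 / t) = 0 := by
      have : Λ t = 0 := ht
      rw [this]; rfl
    rw [hΛ, mul_div_cancel₀ _ h0, hT] at h1
    exact one_ne_zero h1
  have hs := (LinearMap.injective_iff_surjective_of_finrank_eq_finrank
    (f := Λ.toZModLinearMap 2) Subspace.dual_finrank_eq.symm).1 hi
  obtain ⟨t, ht⟩ := hs g
  exact ⟨t, fun z => by rw [← ht]; rfl⟩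

lemma pa_mem (T : F →ₗ[ZMod 2] ZMod 2) (σ : V →ₗ[ZMod 2] F) (x y : F)
    (h : ∀ v, T (psi σ x y v) = 0) : pa x y ∈ K T σ := by
  rintro l ⟨v, c, hc, rfl⟩ hl
  rw [ln, pa, mem_mk] at hl
  simp at hl
  have h2 : (2 : F) = 0 := CharTwo.two_eq_zero
  have e : psi σ x y v = σ v * c := by
    change σ v * _ + σ v ^ 2 * _ = _
    linear_combination σ v * hl - σ v * c * h2
  rw [← e, h] at hc
  exact zero_ne_one hc

lemma lemB (T : F →ₗ[ZMod 2] ZMod 2) (c0 : F) (hT : T c0 = 1) (σ : V →ₗ[ZMod 2] F) (k : ℕ)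
    (hV : k + Nat.card V ≤ Nat.card F) (hF : k * Nat.card V ≤ Nat.card F)
    (l : ℙ F (Fin 3 → F)) (hl : l ∉ M T σ) :
    k ≤ {p | p ∈ K T σ ∧ p ∈ l}.ncard := by
  induction l with | h u hu =>
  have h2 : (2 : F) = 0 := CharTwo.two_eq_zero
  by_cases hz : u 0 = 0 ∧ u 1 = 0
  · have h3 : (Set.range σ)ᶜ.ncard ≤ {p | p ∈ K T σ ∧ p ∈ mk F u hu}.ncard := by
      refine Set.ncard_le_ncard_of_injOn (fun x => pi x) ?_ ?_ (Set.toFinite _)
      · intro x hx
        refine ⟨?_, ?_⟩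
        · rintro l ⟨v, c, -, rfl⟩ hl
          rw [ln, pi, mem_mk] at hl
          simp at hl
          exact hx ⟨v, by linear_combination hl - x * h2⟩
        · rw [pi, mem_mk]
          simp [hz.1, hz.2]
      · intro c _ c' _ h
        exact pi_inj h
    have h4 := Set.ncard_add_ncard_compl (Set.range σ)
    have h5 : (Set.range σ).ncard ≤ Nat.card V := by
      rw [← Set.image_univ, ← Set.ncard_univ]
      exact Set.ncard_image_le (Set.toFinite _)
    omega
  · obtain ⟨x1, y1, h1⟩ : ∃ x1 y1 : F, x1 * u 0 + y1 * u 1 + u 2 = 0 := by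
      by_cases h0 : u 0 = 0
      · have h1 : u 1 ≠ 0 := fun h => hz ⟨h0, h⟩
        exact ⟨0, -u 2 / u 1, by field_simp; ring⟩
      · exact ⟨-u 2 / u 0, 0, by field_simp; ring⟩
    let ψ : V →ₗ[ZMod 2] F := (psi σ (u 1) (u 0)).toZModLinearMap 2
    let f : V →ₗ[ZMod 2] ZMod 2 := T.comp ((psi σ x1 y1).toZModLinearMap 2)
    have hk : f ∈ (LinearMap.ker ψ).dualAnnihilator := by
      rw [Submodule.mem_dualAnnihilator]
      intro v hv
      have hv' : σ v * u 1 + σ v ^ 2 * u 0 = 0 := hv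
      change T (σ v * x1 + σ v ^ 2 * y1) = 0
      by_cases hs : σ v = 0
      · simp [hs]
      have h3 : u 1 = σ v * u 0 := by
        have : σ v * (u 1 + σ v * u 0) = 0 := by linear_combination hv'
        have := (mul_eq_zero.1 this).resolve_left hs
        linear_combination this - σ v * u 0 * h2
      have h0 : u 0 ≠ 0 := fun h => hz ⟨h, by simp [h3, h]⟩
      apply z2
      intro h
      apply hl
      refine ⟨v, x1 + σ v * y1, by rw [← h]; congr 1; ring, ?_⟩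
      rw [ln, mk_eq_mk_iff']
      refine ⟨u 0, ?_⟩
      ext i
      fin_cases i
      · simp
      · simp [h3, mul_comm]
      · simp
        rw [h3] at h1
        linear_combination h1 - u 2 * h2
    rw [← LinearMap.range_dualMap_eq_dualAnnihilator_ker] at hk
    obtain ⟨g, hg⟩ := hk
    obtain ⟨t, ht⟩ := rep T c0 hT g
    have hf : ∀ v, f v = T (t * ψ v) := fun v => by rw [← hg, ← ht]; rfl
    let Φ : F →+ Module.Dual (ZMod 2) V :=
      { toFun := fun t => ((T.toAddMonoidHom.comp (AddMonoidHom.mulLeft t)).toZModLinearMap 2).comp ψ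
        map_zero' := by ext z; simp
        map_add' := by intro a b; ext z; simp [add_mul] }
    have hΦ : ∀ t v, Φ t v = T (t * ψ v) := fun t z => rfl
    have h3 : (Φ.ker : Set F).ncard ≤ {p | p ∈ K T σ ∧ p ∈ mk F u hu}.ncard := by
      refine Set.ncard_le_ncard_of_injOn
        (fun s => pa (x1 + (t + s) * u 1) (y1 + (t + s) * u 0)) ?_ ?_ (Set.toFinite _)
      · intro s hs
        refine ⟨pa_mem T σ _ _ fun v => ?_, ?_⟩
        · have e : psi σ (x1 + (t + s) * u 1) (y1 + (t + s) * u 0) v =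
              psi σ x1 y1 v + t * ψ v + s * ψ v := by
            change σ v * _ + σ v ^ 2 * _ = σ v * _ + σ v ^ 2 * _ + t * (σ v * _ + σ v ^ 2 * _) +
              s * (σ v * _ + σ v ^ 2 * _)
            ring
          have hs' : Φ s = 0 := hs
          rw [e, map_add, map_add, ← hf, ← hΦ, hs']
          exact (add_zero _).trans (z2' _)
        · rw [pa, mem_mk]
          simp
          linear_combination h1 + (t + s) * u 0 * u 1 * h2
      · intro s _ s' _ h
        obtain ⟨e1, e2⟩ := pa_inj h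
        by_contra hne
        apply hz
        have hne' : s - s' ≠ 0 := sub_ne_zero.2 hne
        constructor
        · exact (mul_eq_zero.1 (show (s - s') * u 0 = 0 by linear_combination e2)).resolve_left hne'
        · exact (mul_eq_zero.1 (show (s - s') * u 1 = 0 by linear_combination e1)).resolve_left hne'
    have hD : Nat.card (Module.Dual (ZMod 2) V) = Nat.card V := by
      rw [Module.natCard_eq_pow_finrank (K := ZMod 2), Subspace.dual_finrank_eq,
        ← Module.natCard_eq_pow_finrank]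
    haveI : Finite (Module.Dual (ZMod 2) V) :=
      Nat.finite_of_card_ne_zero (by rw [hD]; exact Nat.card_pos.ne')
    have h4 : Nat.card F = Nat.card Φ.ker * Φ.ker.index := (AddSubgroup.card_mul_index _).symm
    rw [AddSubgroup.index_ker] at h4
    have h5 : Nat.card Φ.range ≤ Nat.card V := by
      rw [← hD]; exact Nat.card_le_card_of_injective _ Subtype.val_injective
    have h6 : Nat.card Φ.ker = (Φ.ker : Set F).ncard := rfl
    have h7 : k * Nat.card V ≤ Nat.card Φ.ker * Nat.card V :=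
      hF.trans (h4.le.trans (Nat.mul_le_mul_left _ h5))
    have h8 := Nat.le_of_mul_le_mul_right h7 Nat.card_pos
    omega

/-- the dominating set -/
def D (T : F →ₗ[ZMod 2] ZMod 2) (σ : V →ₗ[ZMod 2] F) :
    Set (ℙ F (Fin 3 → F) ⊕ ℙ F (Fin 3 → F)) :=
  {w | Sum.elim (· ∈ K T σ) (· ∈ M T σ) w}

lemma dis (T : F →ₗ[ZMod 2] ZMod 2) (c0 : F) (hT : T c0 = 1) (σ : V →ₗ[ZMod 2] F)
    (hσ : Function.Injective σ) (k : ℕ) (h1 : 2 * k ≤ Nat.card V) (h2 : 2 * k ≤ Nat.card F)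
    (hV : k + Nat.card V ≤ Nat.card F) (hF : k * Nat.card V ≤ Nat.card F) :
    IsDIS (inc (ℙ F (Fin 3 → F)) (ℙ F (Fin 3 → F))) k (D T σ) := by
  constructor
  · rintro (p | l) hv
    · refine (lemA T σ hσ k h1 h2 p hv).trans
        (Set.ncard_le_ncard_of_injOn Sum.inr ?_ Sum.inr_injective.injOn (Set.toFinite _))
      rintro l ⟨hl, hp⟩
      exact ⟨⟨by simp, Or.inl ⟨p, l, rfl, rfl, hp⟩⟩, hl⟩
    · refine (lemB T c0 hT σ k hV hF l hv).trans
        (Set.ncard_le_ncard_of_injOn Sum.inl ?_ Sum.inl_injective.injOn (Set.toFinite _))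
      rintro p ⟨hp, hl⟩
      exact ⟨⟨by simp, Or.inr ⟨p, l, rfl, rfl, hl⟩⟩, hp⟩
  · rintro u hu v hv ⟨-, ⟨p, l, rfl, rfl, h⟩ | ⟨p, l, rfl, rfl, h⟩⟩
    · exact hu l hv h
    · exact hv l hu h

lemma D_inj (T : F →ₗ[ZMod 2] ZMod 2) (c0 : F) (hT : T c0 = 1) (σ σ' : V →ₗ[ZMod 2] F)
    (h : D T σ = D T σ') (v : V) : ∃ w, σ v = σ' w := by
  by_cases hv : σ v = 0
  · exact ⟨0, by simp [hv]⟩
  have h1 : Sum.inr (ln (σ v) (c0 / σ v)) ∈ D T σ :=
    ⟨v, _, by rw [mul_div_cancel₀ _ hv, hT], rfl⟩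
  rw [h] at h1
  obtain ⟨w, c, -, e⟩ := h1
  exact ⟨w, (ln_inj e).1⟩

end

lemma count (k m : ℕ) (hk : k + 1 ≤ m) : ∃ (F : Type) (_ : Field F) (_ : Finite F),
    Nat.card F = 2 ^ (2 * m) ∧
    2 ^ (m * m) ≤ {D | IsDIS (inc (ℙ F (Fin 3 → F)) (ℙ F (Fin 3 → F))) k D}.ncard := by
  have hm : 2 * m ≠ 0 := by omega
  let F := GaloisField 2 (2 * m)
  let V := Fin m → ZMod 2
  have hF : Nat.card F = 2 ^ (2 * m) := GaloisField.card 2 _ hm
  have hV : Nat.card V = 2 ^ m := by simp [V]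
  refine ⟨F, inferInstance, inferInstance, hF, ?_⟩
  let e : (V × V) ≃ₗ[ZMod 2] F := LinearEquiv.ofFinrankEq _ _ (by
    rw [GaloisField.finrank 2 hm]; simp [V]; ring)
  obtain ⟨T, hT⟩ := Module.Projective.exists_dual_eq_one (ZMod 2) (x := (1 : F)) one_ne_zero
  let σ : Matrix (Fin m) (Fin m) (ZMod 2) → V →ₗ[ZMod 2] F := fun A =>
    e.toLinearMap.comp (LinearMap.prod LinearMap.id A.mulVecLin)
  have hσ : ∀ A v, σ A v = e (v, A.mulVec v) := fun A v => rfl
  have hk1 : 2 * k ≤ 2 ^ m := by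
    obtain ⟨j, rfl⟩ : ∃ j, m = j + 1 := ⟨m - 1, by omega⟩
    have := Nat.lt_two_pow_self (n := j)
    rw [pow_succ]; omega
  have hq : 2 ^ (2 * m) = 2 ^ m * 2 ^ m := by ring
  have hm2 : 2 ≤ 2 ^ m := by
    have := Nat.lt_two_pow_self (n := m); omega
  have hc : 2 ^ (m * m) = (Set.univ : Set (Matrix (Fin m) (Fin m) (ZMod 2))).ncard := by
    rw [Set.ncard_univ, Matrix]; simp [pow_mul]
  rw [hc]
  refine Set.ncard_le_ncard_of_injOn (fun A => D T (σ A)) ?_ ?_ (Set.toFinite _)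
  · intro A _
    refine dis T 1 hT (σ A) ?_ k (by omega) (by rw [hF, hq]; nlinarith)
      (by rw [hF, hV, hq]; nlinarith) (by rw [hF, hV, hq]; nlinarith)
    intro v w h
    rw [hσ, hσ] at h
    exact congrArg Prod.fst (e.injective h)
  · intro A _ B _ h
    apply Matrix.mulVec_injective
    funext v
    obtain ⟨w, hw⟩ := D_inj T 1 hT _ _ h v
    rw [hσ, hσ] at hw
    obtain ⟨h1, h2⟩ := Prod.mk.inj (e.injective hw)
    rw [h2, h1]

theorem result (k : ℕ) : ¬ ∃ C c : ℝ, 0 < C ∧ 0 < c ∧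
    ∀ (P L : Type) [Finite P] [Finite L] [Membership P L] [ProjectivePlane P L],
      ({D | IsDIS (inc P L) k D}.ncard : ℝ) ≤ C * (Nat.card (P ⊕ L) : ℝ) ^ c := by
  rintro ⟨C, c, hC, hc, h⟩
  obtain ⟨N, hN⟩ := exists_nat_ge (max C c)
  have hCN : C ≤ N := (le_max_left _ _).trans hN
  have hcN : c ≤ N := (le_max_right _ _).trans hN
  obtain ⟨F, _, _, hF, hD⟩ := count k (8 * N + k + 1) (by omega)
  classical
  have h1 := h (ℙ F (Fin 3 → F)) (ℙ F (Fin 3 → F))
  set m := 8 * N + k + 1 with hm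
  have h2 : Nat.card (ℙ F (Fin 3 → F)) ≤ 2 ^ (6 * m) := by
    refine (Nat.card_le_card_of_injective (fun p : ℙ F (Fin 3 → F) => p.rep) ?_).trans ?_
    · intro p q hpq
      rw [← p.mk_rep, ← q.mk_rep]
      simp only [hpq]
    · simp [Nat.card_pi, hF, ← pow_mul]
      exact Nat.pow_le_pow_right (by norm_num) (by omega)
  have h3 : Nat.card (ℙ F (Fin 3 → F) ⊕ ℙ F (Fin 3 → F)) ≤ 2 ^ (6 * m + 1) := by
    rw [Nat.card_sum, pow_succ]; omega
  have h0 : 1 ≤ Nat.card (ℙ F (Fin 3 → F) ⊕ ℙ F (Fin 3 → F)) := by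
    haveI : Nonempty (ℙ F (Fin 3 → F)) := ⟨ln 0 0⟩
    exact Nat.card_pos
  set n := Nat.card (ℙ F (Fin 3 → F) ⊕ ℙ F (Fin 3 → F))
  have h4 : (n : ℝ) ^ c ≤ (n : ℝ) ^ N := by
    rw [← Real.rpow_natCast]
    exact Real.rpow_le_rpow_of_exponent_le (by exact_mod_cast h0) hcN
  have h5 : ((2 ^ (m * m) : ℕ) : ℝ) ≤ (N * n ^ N : ℕ) := by
    refine (Nat.cast_le.2 hD).trans (h1.trans ?_)
    push_cast
    gcongr
  have h6 : 2 ^ (m * m) ≤ N * n ^ N := by exact_mod_cast h5
  have h7 : N * n ^ N ≤ 2 ^ (N + (6 * m + 1) * N) := by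
    rw [pow_add, pow_mul]
    exact Nat.mul_le_mul Nat.lt_two_pow_self.le (Nat.pow_le_pow_left h3 _)
  have h8 := (Nat.pow_le_pow_iff_right (by norm_num)).1 (h6.trans h7)
  have h9 : 8 * N + 1 ≤ m := by omega
  nlinarith

end Pool.Agent.Results.MP_a51b5f_co.Yes
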